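import Mathlib
import Pool.Agent.V11299.JD.Comp

/-!
# The Jacobi-symbol determinant `{3,2}_n` for `n ≡ 3 (mod 8)`
-/

set_option autoImplicit false

namespace Pool.Agent.Results.MP_72abcc_nt.HalfTotientSquare

/-- The determinant `{c,d}_n = det[((j² + c j k + d k²)/n)]_{1 < j,k < n-1}` of Jacobi symbols; the
rows and columns are indexed by `j = j' + 2`, `k = k' + 2` with `0 ≤ j', k' < n - 3`. -/
def braceDet (c d : ℤ) (n : ℕ) : ℤ :=
  (Matrix.of fun j k : Fin (n - 3) =>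
    jacobiSym (((j : ℤ) + 2) ^ 2 + c * ((j : ℤ) + 2) * ((k : ℤ) + 2) + d * ((k : ℤ) + 2) ^ 2) n).det

/-- For every `n ≡ 3 (mod 8)` there is an integer `x` with `{3,2}_n = (φ(n)/2) x²`. -/
theorem result : ∀ n : ℕ, n % 8 = 3 →
    ∃ x : ℤ, ((braceDet 3 2 n : ℤ) : ℚ) = (n.totient : ℚ) / 2 * (x : ℚ) ^ 2 :=
  Pool.Agent.V11299.JD.main

end Pool.Agent.Results.MP_72abcc_nt.HalfTotientSquare
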